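import Pool.Agent.W785.QR.Stm

/-! QR-ALG (MP_2d1ae5_an) -/

set_option autoImplicit false

open MeasureTheory Set
open scoped FourierTransform ContDiff RealInnerProductSpace ComplexConjugate

namespace Pool.Agent.W52.QR

open Pool.Agent.W785.QR

theorem mid_mem : (-(1 / 2) : ℝ) ∈ TI := by
  constructor <;> norm_num

theorem TI_open : IsOpen TI := isOpen_Ioo

theorem one_le_norm (ξ : E) : (1 : ℝ) ≤ 1 + ‖ξ‖ := by
  have := norm_nonneg ξ; linarith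

/-- nonnegative constants -/
theorem Rap.bound {f : ℝ → E → ℂ} (hf : Rap f) (j : ℕ) : ∃ C : ℝ, 0 ≤ C ∧
    ∀ t ∈ TI, ∀ ξ, ‖f t ξ‖ * (1 + ‖ξ‖) ^ j ≤ C := by
  obtain ⟨C, hC⟩ := hf.2 j
  refine ⟨C, ?_, hC⟩
  refine le_trans ?_ (hC _ mid_mem 0)
  positivity

theorem Rap.add {f g : ℝ → E → ℂ} (hf : Rap f) (hg : Rap g) :
    Rap fun t ξ => f t ξ + g t ξ := by
  refine ⟨fun t ht => (hf.1 t ht).add (hg.1 t ht), fun j => ?_⟩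
  obtain ⟨C, hC⟩ := hf.2 j
  obtain ⟨C', hC'⟩ := hg.2 j
  refine ⟨C + C', fun t ht ξ => ?_⟩
  calc ‖f t ξ + g t ξ‖ * (1 + ‖ξ‖) ^ j ≤ (‖f t ξ‖ + ‖g t ξ‖) * (1 + ‖ξ‖) ^ j :=
        mul_le_mul_of_nonneg_right (norm_add_le _ _) (by positivity)
    _ = ‖f t ξ‖ * (1 + ‖ξ‖) ^ j + ‖g t ξ‖ * (1 + ‖ξ‖) ^ j := by ring
    _ ≤ C + C' := add_le_add (hC t ht ξ) (hC' t ht ξ)

theorem Rap.symb {f : ℝ → E → ℂ} (hf : Rap f) {σ : E → ℂ} (hσ : Measurable σ)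
    (hb : ∃ (k : ℕ) (C : ℝ), ∀ ξ, ‖σ ξ‖ ≤ C * (1 + ‖ξ‖) ^ k) :
    Rap fun t ξ => σ ξ * f t ξ := by
  obtain ⟨k, C, hC⟩ := hb
  have hC0 : 0 ≤ C := by
    have := (norm_nonneg _).trans (hC 0)
    rw [norm_zero, add_zero, one_pow, mul_one] at this
    exact this
  refine ⟨fun t ht => hσ.mul (hf.1 t ht), fun j => ?_⟩
  obtain ⟨C', hC'0, hC'⟩ := Rap.bound hf (j + k)
  refine ⟨C * C', fun t ht ξ => ?_⟩
  calc ‖σ ξ * f t ξ‖ * (1 + ‖ξ‖) ^ j = ‖σ ξ‖ * (‖f t ξ‖ * (1 + ‖ξ‖) ^ j) := by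
        rw [norm_mul]; ring
    _ ≤ (C * (1 + ‖ξ‖) ^ k) * (‖f t ξ‖ * (1 + ‖ξ‖) ^ j) :=
        mul_le_mul_of_nonneg_right (hC ξ) (by positivity)
    _ = C * (‖f t ξ‖ * (1 + ‖ξ‖) ^ (j + k)) := by rw [pow_add]; ring
    _ ≤ C * C' := mul_le_mul_of_nonneg_left (hC' t ht ξ) hC0

theorem Sm.rap {n : ℕ} {f : ℝ → E → ℂ} (h : Sm n f) : Rap f := by
  cases n with
  | zero => exact h.1
  | succ n => exact h.1

theorem s_mono : S_mono := by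
  intro n
  induction n with
  | zero =>
    rintro f ⟨h1, f', h2, h3⟩
    exact ⟨h1, fun ξ t ht => (h3 t ht ξ).continuousAt.continuousWithinAt⟩
  | succ n ih =>
    rintro f ⟨h1, f', h2, h3⟩
    exact ⟨h1, f', ih f' h2, h3⟩

theorem s_add : S_add := by
  intro n
  induction n with
  | zero =>
    rintro f g ⟨h1, h2⟩ ⟨h3, h4⟩
    exact ⟨Rap.add h1 h3, fun ξ => (h2 ξ).add (h4 ξ)⟩
  | succ n ih =>
    rintro f g ⟨h1, f', h2, h3⟩ ⟨h4, g', h5, h6⟩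
    exact ⟨Rap.add h1 h4, fun t ξ => f' t ξ + g' t ξ, ih f' g' h2 h5,
      fun t ht ξ => (h3 t ht ξ).add (h6 t ht ξ)⟩

theorem s_symb : S_symb := by
  intro n
  induction n with
  | zero =>
    rintro f σ hσ hb ⟨h1, h2⟩
    exact ⟨Rap.symb h1 hσ hb, fun ξ => continuousOn_const.mul (h2 ξ)⟩
  | succ n ih =>
    rintro f σ hσ hb ⟨h1, f', h2, h3⟩
    exact ⟨Rap.symb h1 hσ hb, fun t ξ => σ ξ * f' t ξ, ih f' σ hσ hb h2,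
      fun t ht ξ => (h3 t ht ξ).const_mul (σ ξ)⟩

theorem Alg.main : S_mono ∧ S_add ∧ S_symb := ⟨s_mono, s_add, s_symb⟩

end Pool.Agent.W52.QR
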