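import Pool.Agent.W785.QR.Stm

/-! QR-BOOT (MP_2d1ae5_an) -/

set_option autoImplicit false

open MeasureTheory Set
open scoped FourierTransform ContDiff RealInnerProductSpace ComplexConjugate Topology

namespace Pool.Agent.W52.QR.Boot

open Pool.Agent.W785.QR

theorem abs_coord (ξ : E) (j : Fin 3) : |ξ j| ≤ ‖ξ‖ := by
  rw [← Real.norm_eq_abs]; exact PiLp.norm_apply_le ξ j

theorem coord_meas (j : Fin 3) : Measurable fun ξ : E => ξ j := by
  have : Continuous fun ξ : E => ξ j := by fun_prop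
  exact this.measurable

theorem sy_meas (j k l : Fin 3) : Measurable fun ξ : E => sy ξ j k l := by
  have hj := coord_meas j
  have hk := coord_meas k
  have hl := coord_meas l
  unfold sy
  refine measurable_const.mul ((?_ : Measurable fun ξ : E => (if l = j then ((ξ k : ℝ) : ℂ) else 0)).sub
    (Complex.measurable_ofReal.comp (((hj.mul hk).mul hl).div (measurable_norm.pow_const 2))))
  split_ifs
  · exact Complex.measurable_ofReal.comp hk
  · exact measurable_const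

theorem triple (ξ : E) (j k l : Fin 3) : |ξ j * ξ k * ξ l / ‖ξ‖ ^ 2| ≤ ‖ξ‖ := by
  rcases eq_or_ne ξ 0 with rfl | h
  · simp
  · have hp : 0 < ‖ξ‖ := norm_pos_iff.2 h
    rw [abs_div, abs_mul, abs_mul, abs_of_pos (by positivity : 0 < ‖ξ‖ ^ 2), div_le_iff₀ (by positivity)]
    have h1 := abs_coord ξ j
    have h2 := abs_coord ξ k
    have h3 := abs_coord ξ l
    calc |ξ j| * |ξ k| * |ξ l| ≤ ‖ξ‖ * ‖ξ‖ * ‖ξ‖ := by gcongr
      _ = ‖ξ‖ * ‖ξ‖ ^ 2 := by ring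

theorem pair (ξ : E) (k l : Fin 3) : |ξ k * ξ l / ‖ξ‖ ^ 2| ≤ 1 := by
  rcases eq_or_ne ξ 0 with rfl | h
  · simp
  · have hp : 0 < ‖ξ‖ := norm_pos_iff.2 h
    rw [abs_div, abs_mul, abs_of_pos (by positivity : 0 < ‖ξ‖ ^ 2), div_le_iff₀ (by positivity)]
    have h2 := abs_coord ξ k
    have h3 := abs_coord ξ l
    calc |ξ k| * |ξ l| ≤ ‖ξ‖ * ‖ξ‖ := by gcongr
      _ = 1 * ‖ξ‖ ^ 2 := by ring

theorem sy_bound (j k l : Fin 3) (ξ : E) : ‖sy ξ j k l‖ ≤ 4 * Real.pi * (1 + ‖ξ‖) ^ 1 := by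
  have h1 : ‖(if l = j then ((ξ k : ℝ) : ℂ) else 0)‖ ≤ ‖ξ‖ := by
    split_ifs
    · rw [Complex.norm_real, Real.norm_eq_abs]; exact abs_coord ξ k
    · rw [norm_zero]; exact norm_nonneg _
  have h2 : ‖((ξ j * ξ k * ξ l / ‖ξ‖ ^ 2 : ℝ) : ℂ)‖ ≤ ‖ξ‖ := by
    rw [Complex.norm_real, Real.norm_eq_abs]; exact triple ξ j k l
  have h3 : ‖2 * (Real.pi : ℂ) * Complex.I‖ = 2 * Real.pi := by
    rw [norm_mul, norm_mul, Complex.norm_I, Complex.norm_real, Complex.norm_ofNat, Real.norm_eq_abs,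
      abs_of_pos Real.pi_pos, mul_one]
  unfold sy
  rw [norm_mul, h3]
  have h4 := (norm_sub_le (if l = j then ((ξ k : ℝ) : ℂ) else 0)
    ((ξ j * ξ k * ξ l / ‖ξ‖ ^ 2 : ℝ) : ℂ)).trans (add_le_add h1 h2)
  have h5 := Real.pi_pos
  calc 2 * Real.pi * _ ≤ 2 * Real.pi * (‖ξ‖ + ‖ξ‖) := by gcongr
    _ ≤ 4 * Real.pi * (1 + ‖ξ‖) ^ 1 := by nlinarith [norm_nonneg ξ]

theorem sum3 (hadd : S_add) {n : ℕ} {F : Fin 3 → ℝ → E → ℂ} (h : ∀ k, Sm n (F k)) :
    Sm n fun t ξ => ∑ k, F k t ξ := by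
  have := hadd n _ _ (hadd n _ _ (h 0) (h 1)) (h 2)
  have h2 : (fun t ξ => ∑ k, F k t ξ) = fun t ξ => (F 0 t ξ + F 1 t ξ) + F 2 t ξ := by
    funext t ξ
    rw [Fin.sum_univ_three]
  rw [h2]
  exact this

theorem neg (hsymb : S_symb) {n : ℕ} {f : ℝ → E → ℂ} (h : Sm n f) : Sm n fun t ξ => -f t ξ := by
  have := hsymb n f (fun _ => -1) measurable_const ⟨0, 1, fun ξ => by simp⟩ h
  have h2 : (fun t ξ => -f t ξ) = fun t ξ => (-1 : ℂ) * f t ξ := by
    funext t ξ; ring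
  rw [h2]
  exact this

theorem main : S_mono → S_add → S_symb → S_conv → S_boot := by
  intro hmono hadd hsymb hconv a M
  have key : ∀ n j, Sm n (a j) := by
    intro n
    induction n with
    | zero => exact fun j => ⟨M.rap j, M.cont j⟩
    | succ n ih =>
      intro j
      refine ⟨M.rap j, fun t ξ => -((4 * Real.pi ^ 2 * ‖ξ‖ ^ 2 : ℝ) : ℂ) * a j t ξ - nl a j t ξ, ?_,
        M.ode j⟩
      have hnl : Sm n (nl a j) := by
        have : nl a j = fun t ξ => ∑ k, (fun k t ξ => ∑ l, sy ξ j k l * conv (a k) (a l) t ξ) k t ξ :=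
          rfl
        rw [this]
        refine sum3 hadd fun k => ?_
        refine sum3 (F := fun l t ξ => sy ξ j k l * conv (a k) (a l) t ξ) hadd fun l => ?_
        exact hsymb n _ (fun ξ => sy ξ j k l) (sy_meas j k l) ⟨1, _, sy_bound j k l⟩
          (hconv n _ _ (ih k) (ih l))
      have h1 : Sm n fun t ξ => (-((4 * Real.pi ^ 2 * ‖ξ‖ ^ 2 : ℝ) : ℂ)) * a j t ξ := by
        refine hsymb n _ (fun ξ => -((4 * Real.pi ^ 2 * ‖ξ‖ ^ 2 : ℝ) : ℂ)) ?_ ?_ (ih j)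
        · exact (Complex.measurable_ofReal.comp (measurable_const.mul
            (measurable_norm.pow_const 2))).neg
        · refine ⟨2, 4 * Real.pi ^ 2, fun ξ => ?_⟩
          rw [norm_neg, Complex.norm_real, Real.norm_eq_abs, abs_of_nonneg (by positivity)]
          have h5 := norm_nonneg ξ
          gcongr
          linarith
      have h2 := hadd n _ _ h1 (neg hsymb hnl)
      have h3 : (fun t ξ => -((4 * Real.pi ^ 2 * ‖ξ‖ ^ 2 : ℝ) : ℂ) * a j t ξ - nl a j t ξ) =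
          fun t ξ => -((4 * Real.pi ^ 2 * ‖ξ‖ ^ 2 : ℝ) : ℂ) * a j t ξ + -nl a j t ξ := by
        funext t ξ; ring
      rw [h3]
      exact h2
  refine ⟨key, fun n => ?_⟩
  have h1 : Sm n fun t ξ => ∑ k, ∑ l, ((ξ k * ξ l / ‖ξ‖ ^ 2 : ℝ) : ℂ) * conv (a k) (a l) t ξ := by
    refine sum3 (F := fun k t ξ => ∑ l, ((ξ k * ξ l / ‖ξ‖ ^ 2 : ℝ) : ℂ) * conv (a k) (a l) t ξ)
      hadd fun k => ?_
    refine sum3 (F := fun l t ξ => ((ξ k * ξ l / ‖ξ‖ ^ 2 : ℝ) : ℂ) * conv (a k) (a l) t ξ)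
      hadd fun l => ?_
    refine hsymb n _ (fun ξ => ((ξ k * ξ l / ‖ξ‖ ^ 2 : ℝ) : ℂ)) ?_ ⟨0, 1, fun ξ => ?_⟩
      (hconv n _ _ (key n k) (key n l))
    · exact Complex.measurable_ofReal.comp (((coord_meas k).mul (coord_meas l)).div
        (measurable_norm.pow_const 2))
    · rw [Complex.norm_real, Real.norm_eq_abs, pow_zero, mul_one]
      exact pair ξ k l
  exact neg hsymb h1

end Pool.Agent.W52.QR.Boot
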