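import Pool.Agent.W52.QR.Alg

/-! QR-CONV (MP_2d1ae5_an) -/

set_option autoImplicit false

open MeasureTheory Set
open scoped FourierTransform ContDiff RealInnerProductSpace ComplexConjugate Topology

namespace Pool.Agent.W52.QR

open Pool.Agent.W785.QR

/-- the integrable weight -/
noncomputable def wt (ξ : E) : ℝ := ((1 + ‖ξ‖) ^ 4)⁻¹

theorem wt_int : Integrable wt := by
  have h := integrable_one_add_norm (E := E) (μ := volume) (r := 4) (by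
    rw [finrank_euclideanSpace, Fintype.card_fin]; norm_num)
  refine h.congr (Filter.Eventually.of_forall fun x => ?_)
  show (1 + ‖x‖) ^ (-(4 : ℝ)) = ((1 + ‖x‖) ^ 4)⁻¹
  rw [Real.rpow_neg (by positivity)]
  congr 1
  exact_mod_cast Real.rpow_natCast (1 + ‖x‖) 4

theorem le_wt {a C : ℝ} {ξ : E} (h : a * (1 + ‖ξ‖) ^ 4 ≤ C) : a ≤ C * wt ξ := by
  have h0 : (0 : ℝ) < (1 + ‖ξ‖) ^ 4 := by positivity
  rw [wt, ← div_eq_mul_inv, le_div_iff₀ h0]
  exact h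

theorem Rap.le_wt {f : ℝ → E → ℂ} (hf : Rap f) : ∃ C : ℝ, 0 ≤ C ∧
    ∀ t ∈ TI, ∀ ξ, ‖f t ξ‖ ≤ C * wt ξ := by
  obtain ⟨C, hC0, hC⟩ := Rap.bound hf 4
  exact ⟨C, hC0, fun t ht ξ => QR.le_wt (hC t ht ξ)⟩

theorem Rap.integrable {f : ℝ → E → ℂ} (hf : Rap f) {t : ℝ} (ht : t ∈ TI) :
    Integrable (f t) := by
  obtain ⟨C, hC0, hC⟩ := Rap.le_wt hf
  exact (wt_int.const_mul C).mono' (hf.1 t ht).aestronglyMeasurable
    (Filter.Eventually.of_forall fun ξ => hC t ht ξ)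

/-- the basic bound of the integrand -/
theorem conv_bound {f g : ℝ → E → ℂ} (hf : Rap f) (hg : Rap g) (j : ℕ) : ∃ C : ℝ, 0 ≤ C ∧
    ∀ t ∈ TI, ∀ ξ η, ‖f t η * g t (ξ - η)‖ * (1 + ‖ξ‖) ^ j ≤ C * wt η := by
  obtain ⟨C, hC0, hC⟩ := Rap.bound hf (j + 4)
  obtain ⟨C', hC'0, hC'⟩ := Rap.bound hg j
  refine ⟨C * C', mul_nonneg hC0 hC'0, fun t ht ξ η => ?_⟩
  apply QR.le_wt
  have h1 : (1 + ‖ξ‖) ≤ (1 + ‖η‖) * (1 + ‖ξ - η‖) := by
    have h2 : ‖ξ‖ ≤ ‖η‖ + ‖ξ - η‖ := by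
      calc ‖ξ‖ = ‖η + (ξ - η)‖ := by rw [add_sub_cancel]
        _ ≤ _ := norm_add_le _ _
    nlinarith [norm_nonneg η, norm_nonneg (ξ - η), mul_nonneg (norm_nonneg η) (norm_nonneg (ξ - η))]
  have h2 : (1 + ‖ξ‖) ^ j ≤ (1 + ‖η‖) ^ j * (1 + ‖ξ - η‖) ^ j := by
    rw [← mul_pow]
    exact pow_le_pow_left₀ (by positivity) h1 j
  calc ‖f t η * g t (ξ - η)‖ * (1 + ‖ξ‖) ^ j * (1 + ‖η‖) ^ 4
      ≤ ‖f t η * g t (ξ - η)‖ * ((1 + ‖η‖) ^ j * (1 + ‖ξ - η‖) ^ j) * (1 + ‖η‖) ^ 4 := by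
        gcongr
    _ = (‖f t η‖ * (1 + ‖η‖) ^ (j + 4)) * (‖g t (ξ - η)‖ * (1 + ‖ξ - η‖) ^ j) := by
        rw [norm_mul, pow_add]; ring
    _ ≤ C * C' := mul_le_mul (hC t ht η) (hC' t ht _) (by positivity) hC0

theorem conv_bound0 {f g : ℝ → E → ℂ} (hf : Rap f) (hg : Rap g) : ∃ C : ℝ, 0 ≤ C ∧
    ∀ t ∈ TI, ∀ ξ η, ‖f t η * g t (ξ - η)‖ ≤ C * wt η := by
  obtain ⟨C, hC0, hC⟩ := conv_bound hf hg 0
  refine ⟨C, hC0, fun t ht ξ η => ?_⟩
  have := hC t ht ξ η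
  rwa [pow_zero, mul_one] at this

theorem conv_meas {f g : ℝ → E → ℂ} (hf : Rap f) (hg : Rap g) {t : ℝ} (ht : t ∈ TI) (ξ : E) :
    AEStronglyMeasurable (fun η => f t η * g t (ξ - η)) volume :=
  ((hf.1 t ht).mul ((hg.1 t ht).comp (measurable_const.sub measurable_id))).aestronglyMeasurable

theorem conv_integrable {f g : ℝ → E → ℂ} (hf : Rap f) (hg : Rap g) {t : ℝ} (ht : t ∈ TI) (ξ : E) :
    Integrable (fun η => f t η * g t (ξ - η)) volume := by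
  obtain ⟨C, hC0, hC⟩ := conv_bound0 hf hg
  exact (wt_int.const_mul C).mono' (conv_meas hf hg ht ξ)
    (Filter.Eventually.of_forall fun η => hC t ht ξ η)

theorem Rap.conv {f g : ℝ → E → ℂ} (hf : Rap f) (hg : Rap g) : Rap (conv f g) := by
  refine ⟨fun t ht => ?_, fun j => ?_⟩
  · have h1 : Measurable fun p : E × E => f t p.2 * g t (p.1 - p.2) :=
      ((hf.1 t ht).comp measurable_snd).mul ((hg.1 t ht).comp (measurable_fst.sub measurable_snd))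
    exact (h1.stronglyMeasurable.integral_prod_right').measurable
  · obtain ⟨C, hC0, hC⟩ := conv_bound hf hg j
    refine ⟨C * ∫ η, wt η, fun t ht ξ => ?_⟩
    rw [← integral_const_mul]
    have h2 : ‖W785.QR.conv f g t ξ‖ ≤ ∫ η, ‖f t η * g t (ξ - η)‖ := norm_integral_le_integral_norm _
    calc ‖W785.QR.conv f g t ξ‖ * (1 + ‖ξ‖) ^ j
        ≤ (∫ η, ‖f t η * g t (ξ - η)‖) * (1 + ‖ξ‖) ^ j := by gcongr
      _ = ∫ η, ‖f t η * g t (ξ - η)‖ * (1 + ‖ξ‖) ^ j := (integral_mul_const _ _).symm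
      _ ≤ ∫ η, C * wt η := by
        refine integral_mono ((conv_integrable hf hg ht ξ).norm.mul_const _)
          (wt_int.const_mul C) fun η => hC t ht ξ η

theorem conv_cont {f g : ℝ → E → ℂ} (hf : Rap f) (hg : Rap g)
    (hfc : ∀ ξ, ContinuousOn (fun t => f t ξ) TI) (hgc : ∀ ξ, ContinuousOn (fun t => g t ξ) TI)
    (ξ : E) : ContinuousOn (fun t => conv f g t ξ) TI := by
  obtain ⟨C, hC0, hC⟩ := conv_bound0 hf hg
  intro t ht
  refine continuousWithinAt_of_dominated (bound := fun η => C * wt η) ?_ ?_ (wt_int.const_mul C) ?_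
  · filter_upwards [self_mem_nhdsWithin] with s hs
    exact conv_meas hf hg hs ξ
  · filter_upwards [self_mem_nhdsWithin] with s hs
    exact Filter.Eventually.of_forall fun η => hC s hs ξ η
  · exact Filter.Eventually.of_forall fun η => (hfc η t ht).mul (hgc (ξ - η) t ht)

theorem conv_deriv {f g f' g' : ℝ → E → ℂ} (hf : Rap f) (hg : Rap g) (hf' : Rap f') (hg' : Rap g')
    (hfd : ∀ t ∈ TI, ∀ ξ, HasDerivAt (fun s => f s ξ) (f' t ξ) t)
    (hgd : ∀ t ∈ TI, ∀ ξ, HasDerivAt (fun s => g s ξ) (g' t ξ) t) {t : ℝ} (ht : t ∈ TI) (ξ : E) :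
    HasDerivAt (fun s => conv f g s ξ) (conv f' g t ξ + conv f g' t ξ) t := by
  obtain ⟨C, hC0, hC⟩ := conv_bound0 hf' hg
  obtain ⟨C', hC'0, hC'⟩ := conv_bound0 hf hg'
  have h1 := (hasDerivAt_integral_of_dominated_loc_of_deriv_le (μ := (volume : Measure E))
    (F := fun s η => f s η * g s (ξ - η))
    (F' := fun s η => f' s η * g s (ξ - η) + f s η * g' s (ξ - η))
    (bound := fun η => C * wt η + C' * wt η) (TI_open.mem_nhds ht) ?_
    (conv_integrable hf hg ht ξ) ((conv_meas hf' hg ht ξ).add (conv_meas hf hg' ht ξ)) ?_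
    ((wt_int.const_mul C).add (wt_int.const_mul C')) ?_).2
  · have h2 : ∫ η, (f' t η * g t (ξ - η) + f t η * g' t (ξ - η)) =
        conv f' g t ξ + conv f g' t ξ :=
      integral_add (conv_integrable hf' hg ht ξ) (conv_integrable hf hg' ht ξ)
    rw [h2] at h1
    exact h1
  · filter_upwards [TI_open.mem_nhds ht] with s hs
    exact conv_meas hf hg hs ξ
  · refine Filter.Eventually.of_forall fun η s hs => ?_
    exact (norm_add_le _ _).trans (add_le_add (hC s hs ξ η) (hC' s hs ξ η))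
  · exact Filter.Eventually.of_forall fun η s hs => (hfd s hs η).mul (hgd s hs (ξ - η))

theorem Conv.main : S_conv := by
  intro n
  induction n with
  | zero =>
    rintro f g ⟨h1, h2⟩ ⟨h3, h4⟩
    exact ⟨Rap.conv h1 h3, conv_cont h1 h3 h2 h4⟩
  | succ n ih =>
    intro f g hf hg
    have hf0 := s_mono n f hf
    have hg0 := s_mono n g hg
    obtain ⟨h1, f', h2, h3⟩ := hf
    obtain ⟨h4, g', h5, h6⟩ := hg
    refine ⟨Rap.conv h1 h4, fun t ξ => W785.QR.conv f' g t ξ + W785.QR.conv f g' t ξ,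
      s_add n _ _ (ih f' g h2 hg0) (ih f g' hf0 h5), fun t ht ξ => ?_⟩
    exact conv_deriv h1 h4 (Sm.rap h2) (Sm.rap h5) h3 h6 ht ξ

end Pool.Agent.W52.QR
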