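import Pool.Agent.W785.QR.Stm

/-! QR-DEC (MP_2d1ae5_an) -/

set_option autoImplicit false

open MeasureTheory Set
open scoped ContDiff RealInnerProductSpace ComplexConjugate Topology

namespace Pool.Agent.W52.QR.Dec

open Pool.Agent.W785.QR

noncomputable abbrev cv (f g : E → ℝ) (ξ : E) : ℝ := ∫ η, f η * g (ξ - η)

theorem cv_int {f g : E → ℝ} (hf : Integrable f) (hg : Integrable g) : Integrable (cv f g) :=
  Integrable.integrable_convolution (ContinuousLinearMap.mul ℝ ℝ) hf hg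

theorem cv_exists {f g : E → ℝ} (hf : Integrable f) (hg : Integrable g) :
    ∀ᵐ ξ, Integrable fun η => f η * g (ξ - η) :=
  Integrable.ae_convolution_exists (ContinuousLinearMap.mul ℝ ℝ) hf hg

theorem cv_integral {f g : E → ℝ} (hf : Integrable f) (hg : Integrable g) :
    ∫ ξ, cv f g ξ = (∫ ξ, f ξ) * ∫ ξ, g ξ :=
  integral_convolution (ContinuousLinearMap.mul ℝ ℝ) hf hg

theorem ae_sub {P : E → Prop} (h : ∀ᵐ ξ, P ξ) (ξ : E) : ∀ᵐ η, P (ξ - η) :=
  (Measure.measurePreserving_sub_left volume ξ).quasiMeasurePreserving.ae h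

theorem s_bound : S_bound := by
  intro f f0 h B hB hfi hfm hf0 hhi hhm hh0 hhh hf0B hle
  let g : E → ℝ := fun ξ => max (f ξ - B) 0
  have hg0 : ∀ ξ, 0 ≤ g ξ := fun ξ => le_max_right _ _
  have hgf : ∀ ξ, g ξ ≤ f ξ := fun ξ => max_le (by linarith [hB]) (hf0 ξ)
  have hgm : Measurable g := (hfm.sub measurable_const).max measurable_const
  have hgi : Integrable g := by
    refine hfi.mono' hgm.aestronglyMeasurable (Filter.Eventually.of_forall fun ξ => ?_)
    rw [Real.norm_eq_abs, abs_of_nonneg (hg0 ξ)]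
    exact hgf ξ
  have key : ∀ᵐ ξ, g ξ ≤ cv h g ξ := by
    filter_upwards [hf0B, hle, cv_exists hhi hfi, cv_exists hhi hgi] with ξ h1 h2 h3 h4
    have h5 : ∫ η, h η * f (ξ - η) ≤ B * (∫ η, h η) + cv h g ξ := by
      rw [← integral_const_mul, ← integral_add (hhi.const_mul B) h4]
      refine integral_mono h3 ((hhi.const_mul B).add h4) fun η => ?_
      show h η * f (ξ - η) ≤ B * h η + h η * g (ξ - η)
      have h6 : f (ξ - η) ≤ B + g (ξ - η) := by
        have : f (ξ - η) - B ≤ g (ξ - η) := le_max_left _ _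
        linarith
      nlinarith [hh0 η]
    refine max_le ?_ (integral_nonneg fun η => mul_nonneg (hh0 η) (hg0 _))
    have h7 : B * (∫ η, h η) ≤ B * (1 / 2) := mul_le_mul_of_nonneg_left hhh hB
    linarith
  have h8 : ∫ ξ, g ξ ≤ (∫ ξ, h ξ) * ∫ ξ, g ξ := by
    rw [← cv_integral hhi hgi]
    exact integral_mono_ae hgi (cv_int hhi hgi) key
  have h9 : 0 ≤ ∫ ξ, g ξ := integral_nonneg hg0
  have h10 : ∫ ξ, g ξ = 0 := by
    have : (∫ ξ, h ξ) * (∫ ξ, g ξ) ≤ 1 / 2 * ∫ ξ, g ξ := mul_le_mul_of_nonneg_right hhh h9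
    linarith
  have h11 := (integral_eq_zero_iff_of_nonneg hg0 hgi).1 h10
  filter_upwards [h11] with ξ h12
  have : f ξ - B ≤ g ξ := le_max_left _ _
  rw [h12] at this
  simp only [Pi.zero_apply] at this
  linarith

theorem s_decay : S_decay := by
  intro f V0 C B hfi hfm hf0 hfB hVm hV hVs hC hle j
  obtain ⟨R, hR⟩ := hVs
  have hB : 0 ≤ B := (hV 0).1.trans (hV 0).2
  induction j with
  | zero => exact ⟨B, by simpa using hfB, by simpa using hfi⟩
  | succ j ih =>
    obtain ⟨Cj, hCj, hint⟩ := ih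
    let F : E → ℝ := fun ξ => f ξ * (1 + ‖ξ‖) ^ j
    have hF0 : ∀ ξ, 0 ≤ F ξ := fun ξ => mul_nonneg (hf0 ξ) (by positivity)
    have hFi : Integrable F := hint
    have hFm : Measurable F := hfm.mul ((measurable_const.add measurable_norm).pow_const j)
    -- the pointwise estimate
    have key : ∀ᵐ ξ, f ξ * (1 + ‖ξ‖) ^ (j + 1) ≤ (1 + ‖ξ‖) ^ (j + 1) * V0 ξ + C * cv F F ξ := by
      filter_upwards [hle, cv_exists hFi hFi, cv_exists hfi hfi] with ξ h1 h2 h3
      have hp : (0 : ℝ) < 1 + ‖ξ‖ := by positivity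
      have h4 : (1 + ‖ξ‖) ^ j * (∫ η, f η * f (ξ - η)) ≤ cv F F ξ := by
        rw [← integral_const_mul]
        refine integral_mono (h3.const_mul _) h2 fun η => ?_
        show (1 + ‖ξ‖) ^ j * (f η * f (ξ - η)) ≤
          (f η * (1 + ‖η‖) ^ j) * (f (ξ - η) * (1 + ‖ξ - η‖) ^ j)
        have h5 : (1 + ‖ξ‖) ≤ (1 + ‖η‖) * (1 + ‖ξ - η‖) := by
          have h2 : ‖ξ‖ ≤ ‖η‖ + ‖ξ - η‖ := by
            calc ‖ξ‖ = ‖η + (ξ - η)‖ := by rw [add_sub_cancel]
              _ ≤ _ := norm_add_le _ _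
          nlinarith [norm_nonneg η, norm_nonneg (ξ - η),
            mul_nonneg (norm_nonneg η) (norm_nonneg (ξ - η))]
        have h6 : (1 + ‖ξ‖) ^ j ≤ (1 + ‖η‖) ^ j * (1 + ‖ξ - η‖) ^ j := by
          rw [← mul_pow]
          exact pow_le_pow_left₀ (by positivity) h5 j
        calc (1 + ‖ξ‖) ^ j * (f η * f (ξ - η))
            ≤ ((1 + ‖η‖) ^ j * (1 + ‖ξ - η‖) ^ j) * (f η * f (ξ - η)) :=
              mul_le_mul_of_nonneg_right h6 (mul_nonneg (hf0 _) (hf0 _))
          _ = _ := by ring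
      calc f ξ * (1 + ‖ξ‖) ^ (j + 1)
          ≤ (V0 ξ + C / (1 + ‖ξ‖) * ∫ η, f η * f (ξ - η)) * (1 + ‖ξ‖) ^ (j + 1) :=
            mul_le_mul_of_nonneg_right h1 (by positivity)
        _ = (1 + ‖ξ‖) ^ (j + 1) * V0 ξ + C * ((1 + ‖ξ‖) ^ j * ∫ η, f η * f (ξ - η)) := by
            rw [pow_succ]; field_simp
        _ ≤ _ := by gcongr
    -- the data term
    have hdat : ∀ ξ, (1 + ‖ξ‖) ^ (j + 1) * V0 ξ ≤
        (Metric.closedBall (0 : E) R).indicator (fun _ => (1 + |R|) ^ (j + 1) * B) ξ := by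
      intro ξ
      by_cases h : R < ‖ξ‖
      · rw [hR ξ h, mul_zero]
        refine indicator_nonneg (fun _ _ => by positivity) ξ
      · push Not at h
        rw [indicator_of_mem (by rw [mem_closedBall_zero_iff]; exact h)]
        have h1 : 1 + ‖ξ‖ ≤ 1 + |R| := by linarith [le_abs_self R]
        have := (hV ξ).1
        have := (hV ξ).2
        gcongr
    have hcvB : ∀ ξ, cv F F ξ ≤ Cj * ∫ η, F η := by
      intro ξ
      by_cases hint2 : Integrable fun η => F η * F (ξ - η)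
      · rw [← integral_const_mul]
        refine integral_mono_ae hint2 (hFi.const_mul _) ?_
        filter_upwards [ae_sub hCj ξ] with η hη
        show F η * F (ξ - η) ≤ Cj * F η
        have : F (ξ - η) ≤ Cj := hη
        nlinarith [hF0 η]
      · show ∫ η, F η * F (ξ - η) ≤ _
        rw [integral_undef hint2]
        have hCj0 : 0 ≤ Cj := by
          obtain ⟨ξ, hξ⟩ := hCj.exists
          exact (hF0 ξ).trans hξ
        exact mul_nonneg hCj0 (integral_nonneg hF0)
    refine ⟨(1 + |R|) ^ (j + 1) * B + C * (Cj * ∫ η, F η), ?_, ?_⟩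
    · filter_upwards [key] with ξ h1
      refine h1.trans (add_le_add ((hdat ξ).trans ?_) (mul_le_mul_of_nonneg_left (hcvB ξ) hC))
      exact indicator_le_self' (fun _ _ => by positivity) ξ
    · have hbi : Integrable fun ξ => (Metric.closedBall (0 : E) R).indicator
          (fun _ => (1 + |R|) ^ (j + 1) * B) ξ + C * cv F F ξ := by
        refine Integrable.add ?_ ((cv_int hFi hFi).const_mul C)
        rw [integrable_indicator_iff Metric.isClosed_closedBall.measurableSet]
        exact integrableOn_const (measure_closedBall_lt_top.ne)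
      refine hbi.mono' (hfm.mul ((measurable_const.add measurable_norm).pow_const _)).aestronglyMeasurable ?_
      filter_upwards [key] with ξ h1
      rw [Real.norm_eq_abs, abs_of_nonneg (mul_nonneg (hf0 ξ) (by positivity))]
      exact h1.trans (add_le_add_left (hdat ξ) _)

theorem main : S_bound ∧ S_decay := ⟨s_bound, s_decay⟩

end Pool.Agent.W52.QR.Dec
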