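import Pool.Agent.W52.QR.Conv

/-! QR-DPHI, QR-PROD (MP_2d1ae5_an) -/

set_option autoImplicit false

open MeasureTheory Set
open scoped FourierTransform ContDiff RealInnerProductSpace ComplexConjugate Topology

namespace Pool.Agent.W52.QR

open Pool.Agent.W785.QR

theorem Phi_eq (f : ℝ → E → ℂ) (t : ℝ) (x : E) :
    Phi f t x = ∫ ξ, Complex.exp (((2 * Real.pi * ⟪ξ, x⟫ : ℝ) : ℂ) * Complex.I) * f t ξ :=
  Real.fourierInv_eq' _ _

theorem norm_exp_ph (r : ℝ) : ‖Complex.exp ((r : ℂ) * Complex.I)‖ = 1 :=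
  Complex.norm_exp_ofReal_mul_I r

theorem ph_meas (x : E) : Measurable fun ξ : E =>
    Complex.exp (((2 * Real.pi * ⟪ξ, x⟫ : ℝ) : ℂ) * Complex.I) := by
  have : Continuous fun ξ : E => Complex.exp (((2 * Real.pi * ⟪ξ, x⟫ : ℝ) : ℂ) * Complex.I) := by
    fun_prop
  exact this.measurable

theorem Phi_neg (f : ℝ → E → ℂ) (t : ℝ) (x : E) : Phi f t x = 𝓕 (f t) (-x) :=
  Real.fourierInv_eq_fourier_neg _ _

theorem Prod.s_prod : S_prod := by
  intro f g hf hg t ht x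
  rw [Phi_neg, Phi_neg, Phi_neg]
  have h := Real.fourier_mul_convolution_eq (Rap.integrable hf ht) (Rap.integrable hg ht) (-x)
  rw [← h]
  rfl

theorem Prod.s_real : S_real := by
  intro f hf t ht x
  rw [← Complex.conj_eq_iff_im, Phi_eq, ← integral_conj]
  rw [← integral_neg_eq_self (fun ξ =>
    Complex.exp (((2 * Real.pi * ⟪ξ, x⟫ : ℝ) : ℂ) * Complex.I) * f t ξ)]
  refine integral_congr_ae (Filter.Eventually.of_forall fun ξ => ?_)
  show (starRingEnd ℂ) (Complex.exp (((2 * Real.pi * ⟪ξ, x⟫ : ℝ) : ℂ) * Complex.I) * f t ξ) =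
    Complex.exp (((2 * Real.pi * ⟪-ξ, x⟫ : ℝ) : ℂ) * Complex.I) * f t (-ξ)
  rw [map_mul, ← Complex.exp_conj, map_mul, Complex.conj_ofReal, Complex.conj_I, hf t ht ξ,
    inner_neg_left]
  congr 2
  push_cast
  ring

theorem Prod.main : S_prod ∧ S_real := ⟨Prod.s_prod, Prod.s_real⟩

theorem dphi_time (f f' : ℝ → E → ℂ) (hf : Rap f) (hf' : Rap f')
    (hd : ∀ t ∈ TI, ∀ ξ, HasDerivAt (fun s => f s ξ) (f' t ξ) t) (t : ℝ) (ht : t ∈ TI) (x : E) :
    HasDerivAt (fun s => Phi f s x) (Phi f' t x) t := by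
  obtain ⟨C, hC0, hC⟩ := Rap.le_wt hf'
  have hm : ∀ (g : ℝ → E → ℂ), Rap g → ∀ s ∈ TI, AEStronglyMeasurable (fun ξ =>
      Complex.exp (((2 * Real.pi * ⟪ξ, x⟫ : ℝ) : ℂ) * Complex.I) * g s ξ) volume := fun g hg s hs =>
    ((ph_meas x).mul (hg.1 s hs)).aestronglyMeasurable
  have h1 := (hasDerivAt_integral_of_dominated_loc_of_deriv_le (μ := (volume : Measure E))
    (F := fun s ξ => Complex.exp (((2 * Real.pi * ⟪ξ, x⟫ : ℝ) : ℂ) * Complex.I) * f s ξ)
    (F' := fun s ξ => Complex.exp (((2 * Real.pi * ⟪ξ, x⟫ : ℝ) : ℂ) * Complex.I) * f' s ξ)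
    (bound := fun ξ => C * wt ξ) (TI_open.mem_nhds ht) ?_ ?_ (hm f' hf' t ht) ?_
    (wt_int.const_mul C) ?_).2
  · rw [← Phi_eq] at h1
    refine h1.congr_of_eventuallyEq (Filter.Eventually.of_forall fun s => ?_)
    exact Phi_eq f s x
  · filter_upwards [TI_open.mem_nhds ht] with s hs
    exact hm f hf s hs
  · refine (Rap.integrable hf ht).norm.mono' (hm f hf t ht)
      (Filter.Eventually.of_forall fun ξ => ?_)
    rw [norm_mul, norm_exp_ph, one_mul]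
  · refine Filter.Eventually.of_forall fun ξ s hs => ?_
    rw [norm_mul, norm_exp_ph, one_mul]
    exact hC s hs ξ
  · exact Filter.Eventually.of_forall fun ξ s hs => (hd s hs ξ).const_mul _

theorem Rap.mulnorm_int {f : ℝ → E → ℂ} (hf : Rap f) {t : ℝ} (ht : t ∈ TI) :
    Integrable fun ξ => ‖ξ‖ * ‖f t ξ‖ := by
  obtain ⟨C, hC0, hC⟩ := Rap.bound hf 5
  refine (wt_int.const_mul C).mono' ((measurable_norm.mul (hf.1 t ht).norm).aestronglyMeasurable)
    (Filter.Eventually.of_forall fun ξ => ?_)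
  rw [Real.norm_eq_abs, abs_of_nonneg (by positivity)]
  apply QR.le_wt
  refine le_trans ?_ (hC t ht ξ)
  have h1 : ‖ξ‖ ≤ 1 + ‖ξ‖ := by linarith
  calc ‖ξ‖ * ‖f t ξ‖ * (1 + ‖ξ‖) ^ 4 ≤ (1 + ‖ξ‖) * ‖f t ξ‖ * (1 + ‖ξ‖) ^ 4 := by gcongr
    _ = ‖f t ξ‖ * (1 + ‖ξ‖) ^ 5 := by ring

theorem dphi_space (f : ℝ → E → ℂ) (hf : Rap f) (t : ℝ) (ht : t ∈ TI) (x : E) :
    DifferentiableAt ℝ (Phi f t) x ∧
    ∀ h : E, fderiv ℝ (Phi f t) x h
      = ∑ j, (h j : ℂ) * Phi (fun t ξ => 2 * (Real.pi : ℂ) * Complex.I * ((ξ j : ℝ) : ℂ) * f t ξ) t x := by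
  have hi := Rap.integrable hf ht
  have hi' := Rap.mulnorm_int hf ht
  have h1 := Real.hasFDerivAt_fourier hi hi' (-x)
  have h2 : HasFDerivAt (Phi f t) ((𝓕 (VectorFourier.fourierSMulRight (innerSL ℝ) (f t)) (-x)).comp
      (-ContinuousLinearMap.id ℝ E)) x := by
    have h3 := h1.comp x ((hasFDerivAt_id x).neg)
    refine h3.congr_of_eventuallyEq (Filter.Eventually.of_forall fun y => ?_)
    exact Phi_neg f t y
  refine ⟨h2.differentiableAt, fun h => ?_⟩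
  have hint : Integrable (VectorFourier.fourierSMulRight (innerSL ℝ) (f t)) := by
    refine (hi'.const_mul (2 * Real.pi * ‖(innerSL ℝ : E →L[ℝ] E →L[ℝ] ℝ)‖)).mono'
      hi.1.fourierSMulRight (Filter.Eventually.of_forall fun v => ?_)
    have := VectorFourier.norm_fourierSMulRight_le (innerSL ℝ) (f t) v
    rwa [← mul_assoc]
  rw [h2.fderiv]
  show (𝓕 (VectorFourier.fourierSMulRight (innerSL ℝ) (f t)) (-x)) (-h) = _
  rw [Real.fourier_continuousLinearMap_apply hint, ← Real.fourierInv_eq_fourier_neg,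
    Real.fourierInv_eq']
  have hg : ∀ j : Fin 3, Rap (fun t ξ => 2 * (Real.pi : ℂ) * Complex.I * ((ξ j : ℝ) : ℂ) * f t ξ) := by
    intro j
    refine Rap.symb (σ := fun ξ : E => 2 * (Real.pi : ℂ) * Complex.I * ((ξ j : ℝ) : ℂ)) hf ?_ ?_
    · have : Continuous fun ξ : E => 2 * (Real.pi : ℂ) * Complex.I * ((ξ j : ℝ) : ℂ) := by
        fun_prop
      exact this.measurable
    · refine ⟨1, 2 * Real.pi, fun ξ => ?_⟩
      have h4 : |ξ j| ≤ ‖ξ‖ := by
        rw [← Real.norm_eq_abs]; exact PiLp.norm_apply_le ξ j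
      rw [norm_mul, norm_mul, norm_mul, Complex.norm_I, Complex.norm_real, Complex.norm_real,
        Complex.norm_ofNat, Real.norm_eq_abs, Real.norm_eq_abs, abs_of_pos Real.pi_pos, mul_one,
        pow_one]
      have h5 := Real.pi_pos
      have h6 : |ξ j| ≤ 1 + ‖ξ‖ := by linarith
      gcongr
  have hgi : ∀ j : Fin 3, Integrable fun ξ : E =>
      (h j : ℂ) * (Complex.exp (((2 * Real.pi * ⟪ξ, x⟫ : ℝ) : ℂ) * Complex.I) *
        (2 * (Real.pi : ℂ) * Complex.I * ((ξ j : ℝ) : ℂ) * f t ξ)) := by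
    intro j
    refine Integrable.const_mul ?_ _
    refine (Rap.integrable (hg j) ht).norm.mono'
      ((ph_meas x).mul ((hg j).1 t ht)).aestronglyMeasurable
      (Filter.Eventually.of_forall fun ξ => ?_)
    rw [norm_mul, norm_exp_ph, one_mul]
  simp_rw [Phi_eq, ← integral_const_mul]
  rw [← integral_finsetSum _ fun j _ => hgi j]
  refine integral_congr_ae (Filter.Eventually.of_forall fun ξ => ?_)
  show Complex.exp (((2 * Real.pi * ⟪ξ, x⟫ : ℝ) : ℂ) * Complex.I) •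
    (VectorFourier.fourierSMulRight (innerSL ℝ) (f t) ξ (-h)) = ∑ j : Fin 3, (h j : ℂ) *
      (Complex.exp (((2 * Real.pi * ⟪ξ, x⟫ : ℝ) : ℂ) * Complex.I) *
        (2 * (Real.pi : ℂ) * Complex.I * ((ξ j : ℝ) : ℂ) * f t ξ))
  rw [VectorFourier.fourierSMulRight_apply]
  have h7 : (innerSL ℝ ξ) (-h) = -∑ j : Fin 3, ξ j * h j := by
    rw [innerSL_apply_apply, inner_neg_right, PiLp.inner_apply]
    congr 1
    refine Finset.sum_congr rfl fun j _ => ?_
    rw [RCLike.inner_apply, conj_trivial, mul_comm]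
  rw [h7]
  rw [Fin.sum_univ_three, Fin.sum_univ_three]
  simp only [smul_eq_mul, Complex.real_smul]
  push_cast
  ring

theorem Dphi.main : S_dphi := ⟨dphi_time, dphi_space⟩

end Pool.Agent.W52.QR
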