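import Pool.Agent.W52.QR.EndA

/-! QR-END (MP_2d1ae5_an) -/

set_option autoImplicit false

open MeasureTheory Set
open scoped ContDiff RealInnerProductSpace ComplexConjugate Topology ENNReal

namespace Pool.Agent.W52.QR.End

open Pool.Agent.W785.QR

theorem close {f g : E → E} (hf : Continuous f) (hg : Continuous g) {r : ℝ}
    (h : ∀ x, ‖x‖ ≤ 1 → ‖f x - g x‖ ≤ r) :
    eLpNorm f 3 mu ≤ eLpNorm g 3 mu + ENNReal.ofReal (2 * r) := by
  have h1 : f = g + (f - g) := by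
    funext x; simp
  have h2 := eLpNorm_add_le (μ := mu) (p := 3) hg.aestronglyMeasurable
    (hf.sub hg).aestronglyMeasurable (by norm_num)
  rw [← h1] at h2
  exact h2.trans (add_le_add le_rfl (small (f := f - g) h))

theorem toReal_close {a b : ℝ≥0∞} (ha : a ≠ ⊤) (hb : b ≠ ⊤) {r : ℝ} (hr : 0 ≤ r)
    (h1 : a ≤ b + ENNReal.ofReal r) (h2 : b ≤ a + ENNReal.ofReal r) :
    |a.toReal - b.toReal| ≤ r := by
  have e1 : a.toReal ≤ b.toReal + r := by
    have := ENNReal.toReal_mono (ENNReal.add_ne_top.2 ⟨hb, ENNReal.ofReal_ne_top⟩) h1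
    rwa [ENNReal.toReal_add hb ENNReal.ofReal_ne_top, ENNReal.toReal_ofReal hr] at this
  have e2 : b.toReal ≤ a.toReal + r := by
    have := ENNReal.toReal_mono (ENNReal.add_ne_top.2 ⟨ha, ENNReal.ofReal_ne_top⟩) h2
    rwa [ENNReal.toReal_add ha ENNReal.ofReal_ne_top, ENNReal.toReal_ofReal hr] at this
  rw [abs_le]
  constructor <;> linarith

theorem tn_mem (n : ℕ) : tn n ∈ TI := by
  have h1 : (0 : ℝ) < (1 / 2) ^ (n + 1) := by positivity
  have h2 : ((1 : ℝ) / 2) ^ (n + 1) < 1 := pow_lt_one₀ (by norm_num) (by norm_num) (by omega)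
  constructor
  · show (-1 : ℝ) < -(1 / 2 : ℝ) ^ (n + 1); linarith
  · show -(1 / 2 : ℝ) ^ (n + 1) < 0; linarith

theorem main : S_lin → S_fam → S_end := by
  intro hlin hfam C
  obtain ⟨K, hKdef⟩ : ∃ K : ℝ, K = |C| + 2 := ⟨_, rfl⟩
  have hK : 1 ≤ K := by rw [hKdef]; linarith [abs_nonneg C]
  obtain ⟨D, q, hq0, hq1, hq2⟩ := hlin K hK
  -- continuity in time at the origin
  obtain ⟨δ, hδ, hδ2⟩ : ∃ δ > 0, ∀ s : ℝ, |s| < δ → K - 1 / 2 < lin D q 0 s := by
    have hc : Continuous fun s : ℝ => lin D q 0 s :=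
      (lin_cont D q).comp (by fun_prop : Continuous fun s : ℝ => ((0 : ℝ), s))
    obtain ⟨δ, hδ, h⟩ := Metric.continuousAt_iff.1 (hc.continuousAt (x := 0)) (1 / 2) (by norm_num)
    refine ⟨δ, hδ, fun s hs => ?_⟩
    have h1 := h (x := s) (by rw [Real.dist_eq, sub_zero]; exact hs)
    rw [Real.dist_eq, abs_lt] at h1
    linarith [h1.1]
  let F : ℕ → ℝ≥0∞ := fun n => eLpNorm (W D q (tn n)) 3 mu
  have hF : ∀ n, F n ≤ 9 := fun n => W_bound D q (tn n) K hK (hq1 n) (hq2 n)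
  obtain ⟨S0, hS0def⟩ : ∃ S0 : ℝ≥0∞, S0 = ⨆ n, F n := ⟨_, rfl⟩
  have hS09 : S0 ≤ 9 := by rw [hS0def]; exact iSup_le hF
  have hS0top : S0 ≠ ⊤ := ne_top_of_le_ne_top (by norm_num) hS09
  have hS0pos : S0 ≠ 0 := by
    obtain ⟨n, hn⟩ := exists_pow_lt_of_lt_one hδ (by norm_num : (1 / 2 : ℝ) < 1)
    have h1 : |tn n| < δ := by
      show |-(1 / 2 : ℝ) ^ (n + 1)| < δ
      rw [abs_neg, abs_of_pos (by positivity)]
      refine lt_of_le_of_lt ?_ hn
      exact pow_le_pow_of_le_one (by norm_num) (by norm_num) (by omega)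
    have h2 := hδ2 _ h1
    intro h0
    have h3 : F n = 0 := by
      have : F n ≤ S0 := by rw [hS0def]; exact le_iSup F n
      rw [h0] at this
      exact le_antisymm this zero_le
    rw [eLpNorm_eq_zero_iff (W_cont D q _).aestronglyMeasurable (by norm_num)] at h3
    have h4 := Measure.eqOn_open_of_ae_eq h3 Metric.isOpen_ball (W_cont D q _).continuousOn
      continuousOn_const (x := 0) (by simp)
    have h5 := norm_W D q (tn n) 0
    rw [h4] at h5
    have h6 : (0 : E) 0 = 0 := rfl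
    rw [h6] at h5
    simp only [Pi.zero_apply, norm_zero] at h5
    have h7 : lin D q 0 (tn n) = 0 := abs_eq_zero.1 h5.symm
    rw [h7] at h2
    linarith
  obtain ⟨s0, hs0def⟩ : ∃ s0 : ℝ, s0 = S0.toReal := ⟨_, rfl⟩
  have hs0 : 0 < s0 := by rw [hs0def]; exact ENNReal.toReal_pos hS0pos hS0top
  have hs09 : s0 ≤ 9 := by
    rw [hs0def]
    have := ENNReal.toReal_mono (by norm_num) hS09
    simpa using this
  obtain ⟨c1, hc1def⟩ : ∃ c1 : ℝ, c1 = 40 / s0 := ⟨_, rfl⟩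
  have hc1 : 0 < c1 := by rw [hc1def]; positivity
  have hc1s : c1 * s0 = 40 := by rw [hc1def]; field_simp
  obtain ⟨v, p, hv1, hv2, hv3⟩ := hfam D (fun m => c1 * q m) (1 / 4) (by norm_num)
  have hvc : ∀ c ∈ Icc (0 : ℝ) 1, ∀ t ∈ TI, Continuous (v c t) := by
    intro c hc t ht
    exact (hv1 c hc).smooth_v.continuousOn.comp_continuous
      (by fun_prop : Continuous fun x : E => (t, x)) (fun x => ⟨ht, trivial⟩)
  have hvW : ∀ c ∈ Icc (0 : ℝ) 1, ∀ t ∈ TI, ∀ x, ‖x‖ ≤ 1 →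
      ‖v c t x - ((c * c1) • W D q t) x‖ ≤ 1 / 4 := by
    intro c hc t ht x hx
    have h1 := hv2 c hc t ht x hx
    rw [W_eq, W_smul, smul_smul] at h1
    exact h1
  let T : ℝ → ℝ≥0∞ := fun c => ⨆ n, eLpNorm (v c (tn n)) 3 mu
  have hsm : ∀ c ∈ Icc (0 : ℝ) 1, ∀ n, eLpNorm ((c * c1) • W D q (tn n)) 3 mu =
      ENNReal.ofReal (c * c1) * F n := by
    intro c hc n
    rw [eLpNorm_const_smul, ← ofReal_norm, Real.norm_eq_abs,
      abs_of_nonneg (mul_nonneg hc.1 hc1.le)]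
  have hT1 : ∀ c ∈ Icc (0 : ℝ) 1, T c ≤ ENNReal.ofReal (c * c1) * S0 + ENNReal.ofReal (1 / 2) := by
    intro c hc
    refine iSup_le fun n => ?_
    refine (close (hvc c hc _ (tn_mem n)) ((W_cont D q _).const_smul (c * c1))
      (hvW c hc _ (tn_mem n))).trans ?_
    rw [show (2 : ℝ) * (1 / 4) = 1 / 2 by norm_num]
    refine add_le_add ?_ le_rfl
    have h1 := hsm c hc n
    have h2 : F n ≤ S0 := by rw [hS0def]; exact le_iSup F n
    calc eLpNorm (fun x => (c * c1) • W D q (tn n) x) 3 mu = ENNReal.ofReal (c * c1) * F n := h1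
      _ ≤ _ := by gcongr
  have hT2 : ∀ c ∈ Icc (0 : ℝ) 1, ENNReal.ofReal (c * c1) * S0 ≤ T c + ENNReal.ofReal (1 / 2) := by
    intro c hc
    rw [hS0def, ENNReal.mul_iSup]
    refine iSup_le fun n => ?_
    rw [← hsm c hc n]
    have h1 := close (f := (c * c1) • W D q (tn n)) ((W_cont D q _).const_smul (c * c1))
      (hvc c hc _ (tn_mem n)) (r := 1 / 4) (fun x hx => by
        rw [norm_sub_rev]; exact hvW c hc _ (tn_mem n) x hx)
    rw [show (2 : ℝ) * (1 / 4) = 1 / 2 by norm_num] at h1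
    refine h1.trans (add_le_add ?_ le_rfl)
    exact le_iSup (fun n => eLpNorm (v c (tn n)) 3 mu) n
  have hTtop : ∀ c ∈ Icc (0 : ℝ) 1, T c ≠ ⊤ := fun c hc =>
    ne_top_of_le_ne_top (ENNReal.add_ne_top.2 ⟨ENNReal.mul_ne_top ENNReal.ofReal_ne_top hS0top,
      ENNReal.ofReal_ne_top⟩) (hT1 c hc)
  have habs : ∀ c ∈ Icc (0 : ℝ) 1, |(T c).toReal - c * c1 * s0| ≤ 1 / 2 := by
    intro c hc
    have h1 := toReal_close (hTtop c hc) (ENNReal.mul_ne_top ENNReal.ofReal_ne_top hS0top)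
      (by norm_num : (0 : ℝ) ≤ 1 / 2) (hT1 c hc) (hT2 c hc)
    rwa [ENNReal.toReal_mul, ENNReal.toReal_ofReal (mul_nonneg hc.1 hc1.le), ← hs0def] at h1
  have hcl : ∀ c ∈ Icc (0 : ℝ) 1, ∀ c' ∈ Icc (0 : ℝ) 1, ∀ r : ℝ,
      (∀ t ∈ TI, ∀ x, ‖v c' t x - v c t x‖ ≤ r) → T c' ≤ T c + ENNReal.ofReal (2 * r) := by
    intro c hc c' hc' r h
    refine iSup_le fun n => ?_
    refine (close (hvc c' hc' _ (tn_mem n)) (hvc c hc _ (tn_mem n))
      (fun x _ => h _ (tn_mem n) x)).trans (add_le_add ?_ le_rfl)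
    exact le_iSup (fun n => eLpNorm (v c (tn n)) 3 mu) n
  have hScont : ContinuousOn (fun c => (T c).toReal) (Icc (0 : ℝ) 1) := by
    rw [Metric.continuousOn_iff]
    intro c hc ε hε
    obtain ⟨δ', hδ', h⟩ := hv3 c hc (ε / 4) (by positivity)
    refine ⟨δ', hδ', fun c' hc' hcc => ?_⟩
    rw [Real.dist_eq] at hcc ⊢
    have h1 := h c' hc' hcc
    have h2 := toReal_close (hTtop c' hc') (hTtop c hc) (by positivity : (0 : ℝ) ≤ 2 * (ε / 4))
      (hcl c hc c' hc' (ε / 4) h1)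
      (hcl c' hc' c hc (ε / 4) (fun t ht x => by rw [norm_sub_rev]; exact h1 t ht x))
    refine lt_of_le_of_lt h2 ?_
    linarith
  obtain ⟨c, hc, hcT⟩ : (20 : ℝ) ∈ (fun c => (T c).toReal) '' Icc (0 : ℝ) 1 := by
    apply intermediate_value_Icc zero_le_one hScont
    have h0 := habs 0 ⟨le_rfl, zero_le_one⟩
    have h1 := habs 1 ⟨zero_le_one, le_rfl⟩
    rw [abs_le] at h0 h1
    constructor
    · show (T 0).toReal ≤ 20
      linarith [h0.2]
    · show 20 ≤ (T 1).toReal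
      rw [one_mul, hc1s] at h1
      linarith [h1.1]
  refine ⟨v c, p c, hv1 c hc, ?_, ?_⟩
  · have h1 : (T c).toReal = 20 := hcT
    rw [← h1, ENNReal.ofReal_toReal (hTtop c hc)]
  · rintro ⟨r, hr, hbd⟩
    have h1 := habs c hc
    have h1' : (T c).toReal = 20 := hcT
    rw [h1', abs_le] at h1
    have h2 : 2 ≤ c * c1 := by
      have h3 : 19.5 ≤ c * c1 * s0 := by linarith [h1.2]
      by_contra hcon
      push Not at hcon
      have : c * c1 * s0 ≤ 2 * 9 := by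
        have h0 : 0 ≤ c * c1 := mul_nonneg hc.1 hc1.le
        nlinarith
      linarith
    obtain ⟨s, hs1, hs2, hs3, hs4⟩ : ∃ s : ℝ, s < 0 ∧ -r < s ∧ -1 < s ∧ |s| < δ := by
      refine ⟨-(min (min r 1) δ) / 2, ?_, ?_, ?_, ?_⟩
      · have : 0 < min (min r 1) δ := by positivity
        linarith
      · have h3 : 0 < min (min r 1) δ := by positivity
        have h4 : min (min r 1) δ ≤ r := (min_le_left _ _).trans (min_le_left _ _)
        linarith
      · have h3 : 0 < min (min r 1) δ := by positivity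
        have h4 : min (min r 1) δ ≤ 1 := (min_le_left _ _).trans (min_le_right _ _)
        linarith
      · have h3 : 0 < min (min r 1) δ := by positivity
        have h4 : min (min r 1) δ ≤ δ := min_le_right _ _
        rw [abs_lt]
        constructor <;> linarith
    have h3 := hbd s 0 ⟨hs2, hs1⟩ (by rw [norm_zero]; exact hr)
    have h4 := hvW c hc s ⟨hs3, hs1⟩ 0 (by rw [norm_zero]; norm_num)
    have h5 : ‖((c * c1) • W D q s) 0‖ = c * c1 * |lin D q 0 s| := by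
      rw [Pi.smul_apply, norm_smul, norm_W, Real.norm_eq_abs,
        abs_of_nonneg (mul_nonneg hc.1 hc1.le)]
      rfl
    have h6 : ‖((c * c1) • W D q s) 0‖ ≤ ‖v c s 0‖ + 1 / 4 := by
      calc ‖((c * c1) • W D q s) 0‖ = ‖v c s 0 - (v c s 0 - ((c * c1) • W D q s) 0)‖ := by
            rw [sub_sub_cancel]
        _ ≤ ‖v c s 0‖ + ‖v c s 0 - ((c * c1) • W D q s) 0‖ := norm_sub_le _ _
        _ ≤ _ := by linarith
    rw [h5] at h6
    have h7 := hδ2 s hs4
    have h8 : lin D q 0 s ≤ |lin D q 0 s| := le_abs_self _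
    have h9 := abs_nonneg C
    have h10 := le_abs_self C
    have h11 : 2 * (|C| + 3 / 2) ≤ c * c1 * |lin D q 0 s| := by
      have : |C| + 3 / 2 ≤ |lin D q 0 s| := by linarith
      exact mul_le_mul h2 this (by positivity) (by linarith)
    linarith

end Pool.Agent.W52.QR.End
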