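import Pool.Agent.W52.QR.Dphi

/-! QR-FAM (MP_2d1ae5_an) -/

set_option autoImplicit false

open MeasureTheory Set
open scoped FourierTransform ContDiff RealInnerProductSpace ComplexConjugate Topology

namespace Pool.Agent.W52.QR.Fam

open Pool.Agent.W785.QR

theorem Phi_sub_le {f g : ℝ → E → ℂ} {t : ℝ} (hf : Integrable (f t)) (hg : Integrable (g t))
    (x : E) : ‖Phi f t x - Phi g t x‖ ≤ ∫ ξ, ‖f t ξ - g t ξ‖ := by
  rw [Phi_eq, Phi_eq]
  have h1 : ∀ h : E → ℂ, Integrable h → Integrable fun ξ : E =>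
      Complex.exp (((2 * Real.pi * ⟪ξ, x⟫ : ℝ) : ℂ) * Complex.I) * h ξ := by
    intro h hh
    refine hh.norm.mono' ((ph_meas x).aestronglyMeasurable.mul hh.1)
      (Filter.Eventually.of_forall fun ξ => ?_)
    rw [norm_mul, norm_exp_ph, one_mul]
  rw [← integral_sub (h1 _ hf) (h1 _ hg)]
  refine (norm_integral_le_integral_norm _).trans (le_of_eq ?_)
  refine integral_congr_ae (Filter.Eventually.of_forall fun ξ => ?_)
  show ‖Complex.exp (((2 * Real.pi * ⟪ξ, x⟫ : ℝ) : ℂ) * Complex.I) * f t ξ -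
    Complex.exp (((2 * Real.pi * ⟪ξ, x⟫ : ℝ) : ℂ) * Complex.I) * g t ξ‖ = ‖f t ξ - g t ξ‖
  rw [← mul_sub, norm_mul, norm_exp_ph, one_mul]

theorem norm_le_two {w : E} {r : ℝ} (hr : 0 ≤ r) (h : ∀ j, |w j| ≤ r) : ‖w‖ ≤ 2 * r := by
  rw [EuclideanSpace.norm_eq]
  apply Real.sqrt_le_iff.2
  refine ⟨by positivity, ?_⟩
  rw [Fin.sum_univ_three]
  have h1 : ∀ j, ‖w j‖ ^ 2 ≤ r ^ 2 := by
    intro j
    rw [Real.norm_eq_abs]
    exact pow_le_pow_left₀ (abs_nonneg _) (h j) 2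
  nlinarith [h1 0, h1 1, h1 2, sq_nonneg r]

/-- the heat flow of data is integrable in frequency -/
theorem heat_int {A0 : Fin 3 → E → ℂ} {Λ : ℝ} (hA : Data A0 Λ) (c : ℝ) (j : Fin 3) {t : ℝ}
    (ht : -1 ≤ t) : Integrable (heat c A0 j t) := by
  obtain ⟨B, hB⟩ := hA.bdd
  obtain ⟨R, hR⟩ := hA.supp
  have hB0 : 0 ≤ B := (norm_nonneg _).trans (hB 0 0)
  have hm : Measurable (heat c A0 j t) := by
    refine Measurable.mul (Complex.measurable_ofReal.comp (measurable_const.mul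
      (Real.measurable_exp.comp (measurable_const.mul (measurable_norm.pow_const 2)).neg)))
      (hA.meas j)
  have hbi : Integrable fun ξ => (Metric.closedBall (0 : E) R).indicator
      (fun _ => |c| * B) ξ := by
    rw [integrable_indicator_iff Metric.isClosed_closedBall.measurableSet]
    exact integrableOn_const (measure_closedBall_lt_top.ne)
  refine hbi.mono' hm.aestronglyMeasurable (Filter.Eventually.of_forall fun ξ => ?_)
  show ‖heat c A0 j t ξ‖ ≤ (Metric.closedBall (0 : E) R).indicator (fun _ => |c| * B) ξ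
  unfold heat
  by_cases h : R < ‖ξ‖
  · rw [hR j ξ h, mul_zero, norm_zero]
    exact indicator_nonneg (fun _ _ => by positivity) ξ
  · push Not at h
    rw [indicator_of_mem (by rw [mem_closedBall_zero_iff]; exact h), norm_mul, Complex.norm_real,
      Real.norm_eq_abs, abs_mul]
    have h1 : |Real.exp (-(4 * Real.pi ^ 2 * (t + 1) * ‖ξ‖ ^ 2))| ≤ 1 := by
      rw [Real.abs_exp, Real.exp_le_one_iff]
      have : 0 ≤ 4 * Real.pi ^ 2 * (t + 1) * ‖ξ‖ ^ 2 := by
        have : 0 ≤ t + 1 := by linarith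
        positivity
      linarith
    calc |c| * |Real.exp (-(4 * Real.pi ^ 2 * (t + 1) * ‖ξ‖ ^ 2))| * ‖A0 j ξ‖
        ≤ |c| * 1 * B := by
          have := hB j ξ
          gcongr
      _ = |c| * B := by ring

theorem main : S_exist → S_dat1 → S_dat2 → S_dat3 → S_reg → S_fam := by
  intro hex hd1 hd2 hd3 hreg D q η hη
  obtain ⟨Λ, hΛ, h1⟩ := hd1 D q
  obtain ⟨C2, hC2, h2⟩ := hd2 D q
  obtain ⟨C3, hC3, h3⟩ := hd3 D q
  obtain ⟨C, hC, ε1, hε1, h4⟩ := hex Λ hΛ
  obtain ⟨ε, hε, hε100, hεa, hεb⟩ : ∃ ε : ℝ, 0 < ε ∧ ε ≤ 1 / 100 ∧ C2 * ε ≤ ε1 ∧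
      2 * (C * (C2 * ε) + C3 * ε) ≤ η := by
    refine ⟨min (1 / 100) (min (ε1 / C2) (η / (2 * (C * C2 + C3)))), by positivity,
      min_le_left _ _, ?_, ?_⟩
    · have : min (1 / 100 : ℝ) (min (ε1 / C2) (η / (2 * (C * C2 + C3)))) ≤ ε1 / C2 :=
        (min_le_right _ _).trans (min_le_left _ _)
      calc C2 * _ ≤ C2 * (ε1 / C2) := mul_le_mul_of_nonneg_left this hC2.le
        _ = ε1 := by field_simp
    · have : min (1 / 100 : ℝ) (min (ε1 / C2) (η / (2 * (C * C2 + C3)))) ≤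
          η / (2 * (C * C2 + C3)) := (min_le_right _ _).trans (min_le_right _ _)
      have h5 : (0 : ℝ) < 2 * (C * C2 + C3) := by positivity
      rw [le_div_iff₀ h5] at this
      linarith
  obtain ⟨a, ha1, ha2, ha3⟩ := h4 (dat D q ε) (h1 ε hε hε100) (C2 * ε) (by positivity) hεa
    (h2 ε hε hε100)
  refine ⟨fun c => vel (a c), fun c => pres (a c), fun c hc => hreg _ (ha1 c hc), ?_, ?_⟩
  · intro c hc t ht x hx
    refine le_trans (norm_le_two (r := C * (C2 * ε) + C3 * ε) (by positivity) fun j => ?_) hεb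
    show |(Phi (a c j) t x).re - (if j = 2 then c * lin D q (x 0) t else 0)| ≤ _
    have ht' : t ∈ Icc (-1 : ℝ) 0 := ⟨ht.1.le, ht.2.le⟩
    have e1 := h3 ε hε hε100 c hc t ht' x hx j
    have e2 := (Phi_sub_le (Rap.integrable ((ha1 c hc).rap j) ht)
      (heat_int (h1 ε hε hε100) c j ht.1.le) x).trans (ha2 c hc t ht j)
    have e3 : (Phi (a c j) t x).re - (if j = 2 then c * lin D q (x 0) t else 0) =
        (Phi (a c j) t x - (if j = 2 then ((c * lin D q (x 0) t : ℝ) : ℂ) else 0)).re := by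
      rw [Complex.sub_re]
      split_ifs
      · rw [Complex.ofReal_re]
      · rw [Complex.zero_re]
    rw [e3]
    refine (Complex.abs_re_le_norm _).trans ?_
    calc ‖Phi (a c j) t x - (if j = 2 then ((c * lin D q (x 0) t : ℝ) : ℂ) else 0)‖
        = ‖(Phi (a c j) t x - Phi (heat c (dat D q ε) j) t x) + (Phi (heat c (dat D q ε) j) t x -
          (if j = 2 then ((c * lin D q (x 0) t : ℝ) : ℂ) else 0))‖ := by rw [sub_add_sub_cancel]
      _ ≤ _ := (norm_add_le _ _).trans (add_le_add e2 e1)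
  · intro c hc η' hη'
    obtain ⟨δ, hδ, h5⟩ := ha3 c hc (η' / 2) (by positivity)
    refine ⟨δ, hδ, fun c' hc' hcc t ht x => ?_⟩
    have e0 : η' = 2 * (η' / 2) := by ring
    rw [e0]
    refine norm_le_two (by positivity) fun j => ?_
    show |(Phi (a c' j) t x).re - (Phi (a c j) t x).re| ≤ _
    rw [← Complex.sub_re]
    refine (Complex.abs_re_le_norm _).trans ?_
    exact (Phi_sub_le (Rap.integrable ((ha1 c' hc').rap j) ht)
      (Rap.integrable ((ha1 c hc).rap j) ht) x).trans (h5 c' hc' hcc t ht j)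

end Pool.Agent.W52.QR.Fam
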