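import Pool.Agent.W52.QR.Dphi

/-! QR-L2 (MP_2d1ae5_an) -/

set_option autoImplicit false

open MeasureTheory Set
open scoped FourierTransform ContDiff RealInnerProductSpace ComplexConjugate Topology SchwartzMap

namespace Pool.Agent.W52.QR.L2

open Pool.Agent.W785.QR

/-- Plancherel for the Fourier integral of `L¹ ∩ L²` functions (as in a starting file, for the line) -/
theorem plancherel (f : E → ℂ) (hf : Integrable f) (hf2 : MemLp f 2) :
    ∫⁻ ξ : E, ‖FourierTransform.fourier f ξ‖ₑ ^ 2 = ∫⁻ z : E, ‖f z‖ₑ ^ 2 := by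
  obtain ⟨F2, hF2⟩ : ∃ F2 : Lp ℂ 2 (volume : Measure E), F2 = hf2.toLp f := ⟨_, rfl⟩
  obtain ⟨G, hG⟩ : ∃ G : Lp ℂ 2 (volume : Measure E), G = 𝓕 F2 := ⟨_, rfl⟩
  have hF2ae : (F2 : E → ℂ) =ᵐ[volume] f := by rw [hF2]; exact hf2.coeFn_toLp
  have key : ∀ g : 𝓢(E, ℂ), ∫ x, g x • (G x) = ∫ x, g x • FourierTransform.fourier f x := by
    intro g
    have h1 : (𝓕 (F2 : 𝓢'(E, ℂ))) g = ((𝓕 F2 : Lp ℂ 2 (volume : Measure E)) : 𝓢'(E, ℂ)) g := by
      rw [Lp.fourier_toTemperedDistribution_eq]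
    rw [TemperedDistribution.fourier_apply, Lp.toTemperedDistribution_apply,
      Lp.toTemperedDistribution_apply, ← hG] at h1
    rw [← h1]
    have h2 : ∫ x, (𝓕 g) x • F2 x = ∫ x, (𝓕 g) x • f x := by
      apply integral_congr_ae
      filter_upwards [hF2ae] with x hx
      rw [hx]
    rw [h2]
    have h3 := VectorFourier.integral_fourierIntegral_smul_eq_flip (L := innerₗ E)
      (μ := (volume : Measure E)) (ν := (volume : Measure E))
      Real.continuous_fourierChar continuous_inner g.integrable hf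
    rw [flip_innerₗ] at h3
    exact h3
  have hGae : (G : E → ℂ) =ᵐ[volume] FourierTransform.fourier f := by
    have hcont : Continuous (FourierTransform.fourier f : E → ℂ) :=
      VectorFourier.fourierIntegral_continuous Real.continuous_fourierChar continuous_inner hf
    apply ae_eq_of_integral_contDiff_smul_eq
    · exact (Lp.memLp G).locallyIntegrable (by norm_num)
    · exact hcont.locallyIntegrable
    · intro g g_smooth g_cpt
      have hg₁ : HasCompactSupport (Complex.ofRealCLM ∘ g) := g_cpt.comp_left rfl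
      have hg₂ : ContDiff ℝ ∞ (Complex.ofRealCLM ∘ g) := by fun_prop
      have := key (hg₁.toSchwartzMap hg₂)
      simpa using this
  have hnorm : eLpNorm G 2 volume = eLpNorm f 2 volume := by
    have h1 : ‖G‖ = ‖F2‖ := by rw [hG]; exact Lp.norm_fourier_eq F2
    have h2 : eLpNorm G 2 volume = eLpNorm F2 2 volume := by
      rw [Lp.norm_def, Lp.norm_def] at h1
      exact (ENNReal.toReal_eq_toReal_iff' (Lp.eLpNorm_ne_top G) (Lp.eLpNorm_ne_top F2)).1 h1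
    rw [h2]
    exact eLpNorm_congr_ae hF2ae
  have h2 : ∀ h : E → ℂ, eLpNorm h 2 volume ^ 2 = ∫⁻ z : E, ‖h z‖ₑ ^ 2 := by
    intro h
    rw [eLpNorm_eq_lintegral_rpow_enorm_toReal (by norm_num) (by norm_num)]
    simp only [ENNReal.toReal_ofNat, ENNReal.rpow_ofNat, one_div]
    rw [← ENNReal.rpow_natCast, ← ENNReal.rpow_mul]
    norm_num
  rw [← h2, ← h2, ← hnorm, eLpNorm_congr_ae hGae]

theorem sq_bound {f : ℝ → E → ℂ} (hf : Rap f) : ∃ K : ℝ, 0 ≤ K ∧ ∀ t ∈ TI, ∀ ξ,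
    ‖f t ξ‖ ^ 2 ≤ K * wt ξ := by
  obtain ⟨C, hC0, hC⟩ := Rap.bound hf 4
  refine ⟨C * C, mul_nonneg hC0 hC0, fun t ht ξ => ?_⟩
  apply QR.le_wt
  have h1 := hC t ht ξ
  have h2 : ‖f t ξ‖ ≤ C := by
    refine le_trans ?_ h1
    have : (1 : ℝ) ≤ (1 + ‖ξ‖) ^ 4 := one_le_pow₀ (one_le_norm ξ)
    nlinarith [norm_nonneg (f t ξ)]
  calc ‖f t ξ‖ ^ 2 * (1 + ‖ξ‖) ^ 4 = ‖f t ξ‖ * (‖f t ξ‖ * (1 + ‖ξ‖) ^ 4) := by ring
    _ ≤ C * C := mul_le_mul h2 h1 (by positivity) hC0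

theorem main : S_l2 := by
  intro f hf
  obtain ⟨K, hK0, hK⟩ := sq_bound hf
  refine ⟨∫ ξ, K * wt ξ, fun t ht => ?_⟩
  have hi := Rap.integrable hf ht
  have hsq : Integrable fun ξ => ‖f t ξ‖ ^ 2 := by
    refine (wt_int.const_mul K).mono' ((hf.1 t ht).norm.pow_const 2).aestronglyMeasurable
      (Filter.Eventually.of_forall fun ξ => ?_)
    rw [Real.norm_eq_abs, abs_of_nonneg (by positivity)]
    exact hK t ht ξ
  have h2 : MemLp (f t) 2 := (memLp_two_iff_integrable_sq_norm hi.1).2 hsq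
  have h3 : ∫⁻ x, ‖Phi f t x‖ₑ ^ 2 = ∫⁻ ξ : E, ‖f t ξ‖ₑ ^ 2 := by
    rw [← plancherel (f t) hi h2]
    rw [← lintegral_neg_eq_self (fun ξ : E => ‖FourierTransform.fourier (f t) ξ‖ₑ ^ 2)]
    refine lintegral_congr fun x => ?_
    rw [Phi_neg]
  rw [h3]
  have h4 : ∫⁻ ξ : E, ‖f t ξ‖ₑ ^ 2 = ENNReal.ofReal (∫ ξ, ‖f t ξ‖ ^ 2) := by
    rw [ofReal_integral_eq_lintegral_ofReal hsq (Filter.Eventually.of_forall fun ξ => by positivity)]
    refine lintegral_congr fun ξ => ?_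
    rw [ENNReal.ofReal_pow (norm_nonneg _), ofReal_norm]
  rw [h4]
  exact ENNReal.ofReal_le_ofReal (integral_mono hsq (wt_int.const_mul K) fun ξ => hK t ht ξ)

end Pool.Agent.W52.QR.L2
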