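import Pool.Agent.W785.QR.Stm

/-! QR-END (MP_2d1ae5_an), preparations -/

set_option autoImplicit false

open MeasureTheory Set
open scoped ContDiff RealInnerProductSpace ComplexConjugate Topology ENNReal

namespace Pool.Agent.W52.QR.End

open Pool.Agent.W785.QR

theorem lin_smul (D : ℕ) (q : ℕ → ℝ) (c x t : ℝ) :
    lin D (fun m => c * q m) x t = c * lin D q x t := by
  unfold lin
  rw [Finset.mul_sum]
  exact Finset.sum_congr rfl fun m _ => by ring

theorem lin_cont (D : ℕ) (q : ℕ → ℝ) : Continuous fun p : ℝ × ℝ => lin D q p.1 p.2 := by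
  unfold lin
  refine continuous_finsetSum _ fun m _ => ?_
  fun_prop

/-- the parallel flow -/
noncomputable def W (D : ℕ) (q : ℕ → ℝ) (t : ℝ) (x : E) : E :=
  WithLp.toLp 2 fun j => if j = 2 then lin D q (x 0) t else 0

theorem norm_W (D : ℕ) (q : ℕ → ℝ) (t : ℝ) (x : E) : ‖W D q t x‖ = |lin D q (x 0) t| := by
  rw [W, EuclideanSpace.norm_eq, Fin.sum_univ_three]
  simp [Real.sqrt_sq_eq_abs]

theorem W_smul (D : ℕ) (q : ℕ → ℝ) (c t : ℝ) (x : E) :
    W D (fun m => c * q m) t x = c • W D q t x := by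
  ext j
  show (if j = 2 then lin D (fun m => c * q m) (x 0) t else 0) =
    c * (if j = 2 then lin D q (x 0) t else 0)
  rw [lin_smul]
  split_ifs <;> simp

theorem W_eq (D : ℕ) (q : ℕ → ℝ) (c t : ℝ) (x : E) :
    (WithLp.toLp 2 (fun j => if j = 2 then c * lin D q (x 0) t else 0) : E) = c • W D q t x := by
  ext j
  show (if j = 2 then c * lin D q (x 0) t else 0) =
    c * (if j = 2 then lin D q (x 0) t else 0)
  split_ifs <;> simp

theorem W_cont (D : ℕ) (q : ℕ → ℝ) (t : ℝ) : Continuous (W D q t) := by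
  refine (PiLp.continuous_toLp 2 _).comp (continuous_pi fun j => ?_)
  by_cases hj : j = 2
  · simp only [hj, if_true]
    have h : Continuous fun x : E => (x 0, t) := by fun_prop
    exact (lin_cont D q).comp h
  · simp only [hj, if_false]
    exact continuous_const

/-- the measure -/
noncomputable abbrev mu : Measure E := volume.restrict (Metric.ball (0 : E) 1)

theorem slab (δ : ℝ) (hδ : 0 ≤ δ) : volume {x : E | |x 0| ≤ δ ∧ |x 1| ≤ 1 ∧ |x 2| ≤ 1} ≤
    ENNReal.ofReal (8 * δ) := by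
  have h1 := (PiLp.volume_preserving_ofLp (Fin 3))
  have h2 : {x : E | |x 0| ≤ δ ∧ |x 1| ≤ 1 ∧ |x 2| ≤ 1} =
      (WithLp.ofLp : E → (Fin 3 → ℝ)) ⁻¹' (Icc ![-δ, -1, -1] ![δ, 1, 1]) := by
    ext x
    simp only [mem_ofPred_eq, mem_preimage, mem_Icc, Pi.le_def, Fin.forall_fin_succ, abs_le]
    simp
    tauto
  rw [h2, h1.measure_preimage measurableSet_Icc.nullMeasurableSet, Real.volume_Icc_pi,
    Fin.prod_univ_three]
  simp only [Matrix.cons_val_zero, Matrix.cons_val_one, Matrix.cons_val]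
  rw [← ENNReal.ofReal_mul (by linarith), ← ENNReal.ofReal_mul (by nlinarith)]
  apply ENNReal.ofReal_le_ofReal
  nlinarith

theorem abs_coord (ξ : E) (j : Fin 3) : |ξ j| ≤ ‖ξ‖ := by
  rw [← Real.norm_eq_abs]; exact PiLp.norm_apply_le ξ j

theorem mu_univ : mu univ ≤ 8 := by
  rw [Measure.restrict_apply_univ]
  have h1 : Metric.ball (0 : E) 1 ⊆ {x : E | |x 0| ≤ 1 ∧ |x 1| ≤ 1 ∧ |x 2| ≤ 1} := by
    intro x hx
    rw [mem_ball_zero_iff] at hx
    exact ⟨(abs_coord x 0).trans hx.le, (abs_coord x 1).trans hx.le, (abs_coord x 2).trans hx.le⟩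
  refine (measure_mono h1).trans ((slab 1 zero_le_one).trans ?_)
  rw [mul_one]
  exact le_of_eq (by norm_num)

theorem mu_pow : mu univ ^ (3 : ℝ)⁻¹ ≤ 2 := by
  calc mu univ ^ (3 : ℝ)⁻¹ ≤ (8 : ℝ≥0∞) ^ (3 : ℝ)⁻¹ := ENNReal.rpow_le_rpow mu_univ (by norm_num)
    _ = ((2 : ℝ≥0∞) ^ (3 : ℝ)) ^ (3 : ℝ)⁻¹ := by
        congr 1
        rw [show (3 : ℝ) = ((3 : ℕ) : ℝ) by norm_num, ENNReal.rpow_natCast]
        norm_num
    _ = 2 := by
        rw [← ENNReal.rpow_mul]; norm_num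

/-- functions bounded by `r` on the ball -/
theorem small {f : E → E} {r : ℝ} (h : ∀ x, ‖x‖ ≤ 1 → ‖f x‖ ≤ r) :
    eLpNorm f 3 mu ≤ ENNReal.ofReal (2 * r) := by
  have h1 : ∀ᵐ x ∂mu, ‖f x‖ ≤ r := by
    refine (ae_restrict_iff' Metric.isOpen_ball.measurableSet).2 (Filter.Eventually.of_forall ?_)
    intro x hx
    rw [mem_ball_zero_iff] at hx
    exact h x hx.le
  refine (eLpNorm_le_of_ae_bound h1).trans ?_
  rw [ENNReal.toReal_ofNat, ENNReal.ofReal_mul (by norm_num)]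
  refine mul_le_mul' ?_ le_rfl
  refine mu_pow.trans (le_of_eq ?_)
  norm_num

/-- the bound of the parallel flow -/
theorem W_bound (D : ℕ) (q : ℕ → ℝ) (t K : ℝ) (hK : 1 ≤ K)
    (h1 : ∀ x : ℝ, |x| ≤ 1 → |lin D q x t| ≤ 4 * K)
    (h2 : ∀ x : ℝ, |x| ≤ 1 → 1 / K ^ 3 ≤ |x| → |lin D q x t| ≤ 1) :
    eLpNorm (W D q t) 3 mu ≤ 9 := by
  have hK0 : 0 < K := by linarith
  set S : Set E := {x : E | |x 0| ≤ 1 / K ^ 3 ∧ |x 1| ≤ 1 ∧ |x 2| ≤ 1} with hS
  have hSm : MeasurableSet S := by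
    have : IsClosed S := by
      have c0 : ∀ j : Fin 3, Continuous fun x : E => |x j| := fun j => by fun_prop
      exact (isClosed_le (c0 0) continuous_const).inter
        ((isClosed_le (c0 1) continuous_const).inter (isClosed_le (c0 2) continuous_const))
    exact this.measurableSet
  have key : ∫⁻ x, ‖W D q t x‖ₑ ^ (3 : ℝ) ∂mu ≤ 520 := by
    have h3 : ∀ᵐ x ∂mu, ‖W D q t x‖ₑ ^ (3 : ℝ) ≤
        S.indicator (fun _ => ENNReal.ofReal (64 * K ^ 3)) x + 1 := by
      refine (ae_restrict_iff' Metric.isOpen_ball.measurableSet).2 (Filter.Eventually.of_forall ?_)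
      intro x hx
      rw [mem_ball_zero_iff] at hx
      have hx0 := (abs_coord x 0).trans hx.le
      have e1 : ‖W D q t x‖ₑ ^ (3 : ℝ) = ENNReal.ofReal (|lin D q (x 0) t| ^ 3) := by
        rw [← ofReal_norm, norm_W, show (3 : ℝ) = ((3 : ℕ) : ℝ) by norm_num, ENNReal.rpow_natCast,
          ENNReal.ofReal_pow (abs_nonneg _)]
      rw [e1]
      by_cases hxS : x ∈ S
      · rw [indicator_of_mem hxS]
        refine le_trans ?_ le_self_add
        apply ENNReal.ofReal_le_ofReal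
        calc |lin D q (x 0) t| ^ 3 ≤ (4 * K) ^ 3 := pow_le_pow_left₀ (abs_nonneg _) (h1 _ hx0) 3
          _ = 64 * K ^ 3 := by ring
      · rw [indicator_of_notMem hxS, zero_add]
        have h4 : 1 / K ^ 3 ≤ |x 0| := by
          by_contra hcon
          push Not at hcon
          exact hxS ⟨hcon.le, (abs_coord x 1).trans hx.le, (abs_coord x 2).trans hx.le⟩
        rw [← ENNReal.ofReal_one]
        apply ENNReal.ofReal_le_ofReal
        exact pow_le_one₀ (abs_nonneg _) (h2 _ hx0 h4)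
    refine (lintegral_mono_ae h3).trans ?_
    rw [lintegral_add_right _ measurable_const, lintegral_indicator hSm, setLIntegral_const,
      lintegral_const, one_mul]
    have h5 : mu S ≤ ENNReal.ofReal (8 * (1 / K ^ 3)) :=
      (Measure.restrict_apply_le _ _).trans (slab _ (by positivity))
    calc ENNReal.ofReal (64 * K ^ 3) * mu S + mu univ
        ≤ ENNReal.ofReal (64 * K ^ 3) * ENNReal.ofReal (8 * (1 / K ^ 3)) + 8 := by
          gcongr
          exact mu_univ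
      _ = 520 := by
          rw [← ENNReal.ofReal_mul (by positivity)]
          have : 64 * K ^ 3 * (8 * (1 / K ^ 3)) = 512 := by field_simp; norm_num
          rw [this]
          norm_num
  rw [eLpNorm_eq_lintegral_rpow_enorm_toReal (by norm_num) (by norm_num), ENNReal.toReal_ofNat]
  calc (∫⁻ x, ‖W D q t x‖ₑ ^ (3 : ℝ) ∂mu) ^ (1 / (3 : ℝ)) ≤ (729 : ℝ≥0∞) ^ (1 / (3 : ℝ)) :=
        ENNReal.rpow_le_rpow (key.trans (by norm_num)) (by norm_num)
    _ = ((9 : ℝ≥0∞) ^ (3 : ℝ)) ^ (1 / (3 : ℝ)) := by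
        congr 1
        rw [show (3 : ℝ) = ((3 : ℕ) : ℝ) by norm_num, ENNReal.rpow_natCast]
        norm_num
    _ = 9 := by rw [← ENNReal.rpow_mul]; norm_num

end Pool.Agent.W52.QR.End
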